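import Pool.Agent.R936.UniDefs
import Pool.Agent.R936.Hel.Defs

/-!
# Potentially abelian Galois representations in the cohomology of a family of varieties: definitions
-/

open CategoryTheory AlgebraicGeometry

universe u v w w'

namespace Pool.Agent.R936.Gal

section Alg

variable {K : Type*} [Field K] {A : Type*} [Ring A] [Algebra K A] {Γ : Type*} [Group Γ]

/-- The space `A` is spanned by common eigenvectors of the elements of a subgroup of finite index. -/
def PotentiallyDiagonal (ρ : Γ →* (A ≃ₐ[K] A)) : Prop :=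
  ∃ Δ : Subgroup Γ, Δ.FiniteIndex ∧
    Submodule.span K {a : A | ∀ g ∈ Δ, ∃ c : K, ρ g a = c • a} = ⊤

/-- The elements `g` of a subgroup of finite index act on some nonzero element of `gr d` as the
multiplication by `ψ g`. -/
def IsWeight (gr : ℕ → Submodule K A) (ρ : Γ →* (A ≃ₐ[K] A)) (d : ℕ) (ψ : Γ → K) : Prop :=
  ∃ a ∈ gr d, a ≠ 0 ∧ ∃ Δ : Subgroup Γ, Δ.FiniteIndex ∧ ∀ g ∈ Δ, ρ g a = ψ g • a

end Alg

open Pool.Agent.H914 Pool.Agent.H914.VarClass Pool.Agent.H914.VarClass.Obj
  Pool.Agent.H914.WeilCohomology Pool.Agent.TH125.Gal Pool.Agent.R936.Hel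

variable {k : Type u} [Field k] {𝒱 : VarClass k} {ops : CycleOps 𝒱} {I : Type w'}

/-- The group `Γ` acts on the cohomology algebras of all products `X i₁ × ⋯ × X iₙ` of members of
the family `X` like the Galois group of a finitely generated field over which the varieties `X i` are
defined: it acts like a Galois group on each of them (`χ` is the action on the Tate twists), and the
projections `X i × P → X i` and `X i × P → P` are equivariant. -/
structure FamilyAction (W : WeilCohomology.{u, v} ops) (X : I → 𝒱.Obj) {Γ : Type w} [Group Γ]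
    (χ : Γ →* W.Kˣ) (ρ : ∀ i L, Γ →* (W.H (prodOf X i L) ≃ₐ[W.K] W.H (prodOf X i L))) : Prop where
  galois : ∀ i L, IsGaloisAct χ (W.gr (prodOf X i L)) (prodOf X i L).dim (W.tr (prodOf X i L))
    (algClasses W (prodOf X i L)) (ρ i L)
  fst : ∀ i j L, Intertwines (W.map (fst (X i) (prodOf X j L))) (ρ i []) (ρ i (j :: L))
  snd : ∀ i j L, Intertwines (W.map (snd (X i) (prodOf X j L))) (ρ j L) (ρ i (j :: L))

/-- Any `R + 1` of the pairs `(ψ, d)`, where `ψ` is the character of an eigenvector of degree `d` in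
the cohomology of a member of the family, are multiplicatively dependent, up to characters of finite
order; that is, the group generated by these pairs has rank at most `R`. -/
def WeightRankLe (W : WeilCohomology.{u, v} ops) (X : I → 𝒱.Obj) {Γ : Type w} [Group Γ]
    (ρ : ∀ i L, Γ →* (W.H (prodOf X i L) ≃ₐ[W.K] W.H (prodOf X i L))) (R : ℕ) : Prop :=
  ∀ (d : Fin (R + 1) → ℕ) (ψ : Fin (R + 1) → Γ → W.K),
    (∀ m, ∃ i, IsWeight (W.gr (X i)) (ρ i []) (d m) (ψ m)) →
    ∃ a : Fin (R + 1) → ℤ, a ≠ 0 ∧ ∑ m, a m * d m = 0 ∧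
      ∃ Δ : Subgroup Γ, Δ.FiniteIndex ∧ ∀ g ∈ Δ, ∏ m, ψ m g ^ a m = 1

end Pool.Agent.R936.Gal
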