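import Pool.Agent.R936.Gal.Main

/-!
# The theorem of Helly type for potentially abelian Galois representations
-/

set_option linter.unusedSectionVars false

open CategoryTheory AlgebraicGeometry

universe u v w w'

namespace Pool.Agent.R936.Gal

open Pool.Agent.H914 Pool.Agent.W534 VarClass Obj WeilCohomology Pool.Agent.H281R3.HT
open Pool.Agent.Y163 (HBasis prod_perm)
open Pool.Agent.Y133.Half (spanCycles_of_algSpan)
open Pool.Agent.R940 (repr_zero)
open Pool.Agent.W536.RR (algSpan_map algSpan_mul one_mem_algSpan algSpan_push cl_mem_algSpan)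
open Pool.Agent.TH125.Gal (IsGaloisAct Intertwines TateAct)
open Pool.Agent.R936.Hel
open Submodule (span)

variable {k : Type u} [Field k] {𝒱 : VarClass k} {ops : CycleOps 𝒱}
  {W : WeilCohomology.{u, v} ops} {Y Z Z' : 𝒱.Obj} {Γ : Type w} [Group Γ] {χ : Γ →* W.Kˣ}
  {I : Type w'} {X : I → 𝒱.Obj} {ι : I → Type v} {B : ∀ i, HBasis W (X i) (ι i)}
  {ρ : ∀ i L, Γ →* (W.H (prodOf X i L) ≃ₐ[W.K] W.H (prodOf X i L))} {ψ : ∀ i, ι i → Γ → W.Kˣ}

/-- The system of the algebraic classes. -/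
noncomputable def algC (W : WeilCohomology.{u, v} ops) : Cl W where
  C Y := algSpan W Y
  one _ := one_mem_algSpan
  mul ha hb := algSpan_mul ha hb
  map f _ ha := algSpan_map f ha
  push f _ ha := algSpan_push f ha

variable (B χ ψ) in
/-- The words are Tate classes. -/
def TG (M : Multiset (Σ i, ι i)) : Prop :=
  ∃ J : ℕ, (M.map (dg B)).sum = 2 * J ∧ Near fun g => (M.map (ch ψ)).prod g = χ g ^ J

variable (B ψ) in
/-- The vector of a letter. -/
def vv (l : Σ i, ι i) : GQ Γ W.K × ℤ := (cls (ch ψ l), (dg B l : ℤ))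

variable (χ) in
/-- The vector of the Tate twist. -/
def qq : GQ Γ W.K × ℤ := (cls fun g => χ g, 2)

lemma sum_vv (M : Multiset (Σ i, ι i)) : (M.map (vv B ψ)).sum =
    (cls (M.map (ch ψ)).prod, ((M.map (dg B)).sum : ℤ)) := by
  induction M using Multiset.induction_on with
  | empty => rfl
  | cons a M ih =>
    rw [Multiset.map_cons, Multiset.sum_cons, ih, Multiset.map_cons, Multiset.prod_cons,
      Multiset.map_cons, Multiset.sum_cons, cls_mul]
    push_cast
    rfl

/-- The Tate words are the words in the group of relations. -/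
lemma tg_iff (hψ : ∀ l : Σ i, ι i, HomOn (ch ψ l)) (M : Multiset (Σ i, ι i)) :
    TG χ B ψ M ↔ Hel.toZ M ∈ Hel.Rel (vv B ψ) (qq χ) := by
  have h0 : Hel.toZ M ∈ Hel.Rel (vv B ψ) (qq χ) ↔
      ∃ c : ℤ, c • qq χ = (cls (M.map (ch ψ)).prod, ((M.map (dg B)).sum : ℤ)) := by
    rw [Hel.Rel, Submodule.mem_comap, lc_toZ, sum_vv, Submodule.mem_span_singleton]
  rw [h0]
  constructor
  · rintro ⟨J, hJ, h⟩
    refine ⟨J, Prod.ext ?_ ?_⟩
    · change (J : ℤ) • cls (fun g => χ g) = cls (M.map (ch ψ)).prod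
      rw [← cls_zpow, ← sub_eq_zero, sub_eq_add_neg, ← neg_one_smul ℤ, ← cls_zpow, ← cls_mul]
      refine cls_of_near (h.mono fun g hg => ?_)
      rw [Pi.mul_apply, Pi.pow_apply, Pi.pow_apply, hg, zpow_natCast, zpow_neg, zpow_one,
        mul_inv_cancel]
    · change (J : ℤ) * 2 = _
      rw [hJ]
      push_cast
      ring
  · rintro ⟨c, hc⟩
    have h1 : c * 2 = ((M.map (dg B)).sum : ℤ) := congrArg Prod.snd hc
    have h2 : c • cls (fun g => χ g) = cls (M.map (ch ψ)).prod := congrArg Prod.fst hc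
    have hc0 : 0 ≤ c := by omega
    lift c to ℕ using hc0
    refine ⟨c, by omega, ?_⟩
    have h3 : cls ((M.map (ch ψ)).prod * (fun g => χ g) ^ (-(c : ℤ))) = 0 := by
      rw [cls_mul, cls_zpow, ← h2, neg_smul, add_neg_cancel]
    have h4 := near_of_cls ((HomOn.mprod M hψ).mul ((HomOn.hom χ).zpow _)) h3
    refine h4.mono fun g hg => ?_
    rw [Pi.mul_apply, Pi.pow_apply, zpow_neg, zpow_natCast, mul_inv_eq_one] at hg
    exact hg

lemma dual_aux {σ : Γ →* (W.H Y ≃ₐ[W.K] W.H Y)}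
    (htr : ∀ g a, W.tr Y (σ g a) = ((χ g : W.Kˣ) : W.K) ^ Y.dim * W.tr Y a) {x y : W.H Y}
    {f f' : Γ → W.Kˣ} (hx : Eig σ x f) (hy : Eig σ y f') (h : W.tr Y (x * y) ≠ 0) :
    Near fun g => f g * f' g = χ g ^ Y.dim := by
  refine (Eig.mul hx hy).mono fun g hg => ?_
  have h2 := htr g (x * y)
  rw [hg, map_smul, smul_eq_mul] at h2
  have h6 := mul_right_cancel₀ h h2
  apply Units.ext
  rw [Units.val_pow_eq_pow_val, ← h6, Pi.mul_apply]

/-- The dual letter. -/
lemma dual_tg (hA : FamilyAction W X χ ρ) (hB : ∀ i a, Eig (ρ i []) ((B i).b a) (ψ i a))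
    {m : ∀ l : Σ i, ι i, ι l.1} (hm : ∀ l, W.tr (X l.1) ((B l.1).b (m l) * (B l.1).b l.2) ≠ 0)
    (l : Σ i, ι i) : TG χ B ψ {⟨l.1, m l⟩, l} := by
  have hmem : (B l.1).b (m l) * (B l.1).b l.2 ∈
      W.gr (X l.1) ((B l.1).deg (m l) + (B l.1).deg l.2) :=
    W.mul_mem ((B l.1).mem _) ((B l.1).mem _)
  refine ⟨(X l.1).dim, ?_, ?_⟩
  · by_contra hne
    refine hm l (W.tr_eq_zero hmem fun h => hne ?_)
    rw [← h]
    simp [dg]
  · refine (dual_aux (σ := ρ l.1 []) (hA.galois l.1 []).tr_act (hB l.1 (m l)) (hB l.1 l.2)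
      (hm l)).mono fun g hg => ?_
    refine Eq.trans ?_ hg
    simp [ch]

/-- Words which are Tate words give Tate classes. -/
lemma mem_of_tg {T : 𝒱.Obj} {υ : Γ →* (W.H T ≃ₐ[W.K] W.H T)}
    (hT : TateAct χ (W.gr T) (algClasses W T) υ) {C : List (Lt X ι T)}
    (hC : Eig υ (lwf B C) (C.map fun y => ch ψ y.1).prod)
    (h : TG χ B ψ ↑(C.map Sigma.fst)) : lwf B C ∈ algSpan W T := by
  obtain ⟨J, hJ, h⟩ := h
  have h1 : (C.map fun y => dg B y.1).sum = 2 * J := by
    rw [Multiset.map_coe, List.map_map, Multiset.sum_coe] at hJ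
    exact hJ
  have h2 : ((↑(C.map Sigma.fst) : Multiset (Σ i, ι i)).map (ch ψ)).prod =
      (C.map fun y => ch ψ y.1).prod := by
    rw [Multiset.map_coe, List.map_map, Multiset.prod_coe]
    rfl
  rw [h2] at h
  have h3 : lwf B C ∈ W.gr T (2 * J) := by
    rw [← h1]
    exact lwf_gr C
  have h4 := hT J (lwf B C) h3 ((Near.and hC h).mono fun g hg => by
    rw [hg.1, hg.2, Units.val_pow_eq_pow_val])
  rw [← spanCycles_eq] at h4
  exact span_le_algSpan h4

/-- All Tate words are algebraic. -/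
theorem alg_of_tg [∀ i, Finite (ι i)] (hA : FamilyAction W X χ ρ)
    (hB : ∀ i a, Eig (ρ i []) ((B i).b a) (ψ i a)) {R : ℕ}
    (hR : ∀ s : Fin (R + 1) → (Σ i, ι i), ∃ a : Fin (R + 1) → ℤ, a ≠ 0 ∧
      ∑ i, a i • vv B ψ (s i) = 0)
    (hT : ∀ i L, (∃ F : Finset I, F.card ≤ R + 1 ∧ ∀ j ∈ i :: L, j ∈ F) →
      TateAct χ (W.gr (prodOf X i L)) (algClasses W (prodOf X i L)) (ρ i L))
    {M : Multiset (Σ i, ι i)} (hM : TG χ B ψ M) : AlgS (algC W) B M := by
  have hψ : ∀ l : Σ i, ι i, HomOn (ch ψ l) := fun l =>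
    (hB l.1 l.2).homOn ((B l.1).b.ne_zero l.2)
  choose m hm using exists_duall B
  have hdual : ∀ l : Σ i, ι i, Hel.toZ ({⟨l.1, m l⟩, l} : Multiset (Σ i, ι i)) ∈
      Hel.Rel (vv B ψ) (qq χ) := fun l => (tg_iff hψ _).1 (dual_tg hA hB hm l)
  have hsum : ∀ L : List (Σ i, ι i), Hel.toZ (↑L : Multiset (Σ i, ι i)) +
      Hel.toZ (↑(L.map fun x => (⟨x.1, m x⟩ : Σ i, ι i)) : Multiset (Σ i, ι i)) ∈
        Hel.Rel (vv B ψ) (qq χ) := by
    intro L
    induction L with
    | nil =>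
      rw [← map_add]
      have h1 : (((([] : List (Σ i, ι i)) : Multiset (Σ i, ι i)) +
        ((([] : List (Σ i, ι i)).map fun x => (⟨x.1, m x⟩ : Σ i, ι i)) : Multiset (Σ i, ι i)))) =
          0 := rfl
      rw [h1, map_zero]
      exact Submodule.zero_mem _
    | cons a L ih =>
      have h1 : Hel.toZ (↑(a :: L) : Multiset (Σ i, ι i)) +
          Hel.toZ (↑((a :: L).map fun x => (⟨x.1, m x⟩ : Σ i, ι i)) : Multiset (Σ i, ι i)) =
          Hel.toZ ({⟨a.1, m a⟩, a} : Multiset (Σ i, ι i)) + (Hel.toZ (↑L : Multiset (Σ i, ι i)) +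
          Hel.toZ (↑(L.map fun x => (⟨x.1, m x⟩ : Σ i, ι i)) : Multiset (Σ i, ι i))) := by
        have h2 : Hel.toZ ({⟨a.1, m a⟩, a} : Multiset (Σ i, ι i)) =
            Hel.toZ {⟨a.1, m a⟩} + Hel.toZ {a} := by
          rw [← map_add]
          rfl
        rw [List.map_cons, ← Multiset.cons_coe, ← Multiset.cons_coe, toZ_cons, toZ_cons, h2]
        abel
      rw [h1]
      exact Submodule.add_mem _ (hdual a) ih
  refine span' (S := algC W) ?_ (mem_span_SR hR (fun l => ⟨⟨l.1, m l⟩, rfl, hdual l⟩)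
    ((tg_iff hψ M).1 hM))
  intro l L hl
  obtain ⟨h1, ⟨F, hF, hF'⟩, _⟩ := hl
  have hT' := hT l.1 (L.map Sigma.fst) ⟨F, hF, by
    intro j hj
    rcases List.mem_cons.1 hj with rfl | hj
    · exact hF' l (Multiset.mem_coe.2 List.mem_cons_self)
    · obtain ⟨x, hx, rfl⟩ := List.mem_map.1 hj
      exact hF' x (Multiset.mem_coe.2 (List.mem_cons_of_mem _ hx))⟩
  obtain ⟨C, C', h2, h3, h4, h5, h6, h7⟩ := exists_can hA hB hm L l
  refine ⟨C, h2, h3, ?_, lwf B C', ?_, h5⟩
  · exact mem_of_tg hT' h6 (by rw [h3]; exact (tg_iff hψ _).2 h1)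
  · refine mem_of_tg hT' h7 ?_
    rw [h4, tg_iff hψ]
    have h8 := Submodule.sub_mem _ (hsum (l :: L)) h1
    rwa [add_sub_cancel_left] at h8

/-- **The theorem of Helly type.** -/
theorem helly (hA : FamilyAction W X χ ρ) (hpot : ∀ i, PotentiallyDiagonal (ρ i [])) {R : ℕ}
    (hR : WeightRankLe W X ρ R)
    (hT : ∀ i L, (∃ F : Finset I, F.card ≤ R + 1 ∧ ∀ j ∈ i :: L, j ∈ F) →
      TateAct χ (W.gr (prodOf X i L)) (algClasses W (prodOf X i L)) (ρ i L))
    (i : I) (L : List I) (j : ℕ) (U : (prodOf X i L).V.X.Opens) :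
    TateMod χ (W.gr (prodOf X i L)) (ρ i L) j (removedClasses W (prodOf X i L) j U)
      (algClasses W (prodOf X i L) j) := by
  classical
  choose ι hfin B ψ hB using fun i => exists_gbasis (Y := X i) (ρ := ρ i [])
    (hA.galois i []).gr_mem (hpot i)
  have hR' : ∀ s : Fin (R + 1) → (Σ i, ι i), ∃ a : Fin (R + 1) → ℤ, a ≠ 0 ∧
      ∑ i, a i • vv B ψ (s i) = 0 := by
    intro s
    obtain ⟨a, ha, h1, h2⟩ := hR (fun x => dg B (s x)) (fun x g => ((ch ψ (s x) g : W.Kˣ) : W.K))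
      fun x => ⟨(s x).1, (B (s x).1).b (s x).2, (B (s x).1).mem _, (B (s x).1).b.ne_zero _,
        hB (s x).1 (s x).2⟩
    refine ⟨a, ha, Prod.ext ?_ ?_⟩
    · have h3 : (∑ i, a i • vv B ψ (s i)).1 = cls (∏ i, (ch ψ (s i)) ^ a i) := by
        rw [cls_prod, Prod.fst_sum]
        rfl
      rw [h3]
      refine cls_of_near (Near.mono h2 fun g hg => ?_)
      apply Units.ext
      rw [Units.val_one, ← hg, Finset.prod_apply, Units.coe_prod]
      exact Finset.prod_congr rfl fun i _ => by rw [Pi.pow_apply, Units.val_zpow_eq_zpow_val]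
    · rw [Prod.snd_sum]
      exact_mod_cast h1
  have hall : ∀ M : Multiset (Σ i, ι i), TG χ B ψ M → AlgS (algC W) B M := fun M hM =>
    alg_of_tg hA hB hR' hT hM
  obtain ⟨κ, hκ, b, N, hb⟩ := exists_words hA hfin hB L i
  intro c hc hfix
  let Ψ : κ → Γ → W.Kˣ := fun a => ((N a).map fun y => ch ψ y.1).prod
  have hcoord : Near fun g => ∀ (x : W.H (prodOf X i L)) (a : κ),
      b.repr (ρ i L g x) a = ((Ψ a g : W.Kˣ) : W.K) * b.repr x a := by
    refine (Near.all fun a => (hb a).2).mono fun g hg x a => ?_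
    have := Fintype.ofFinite κ
    have h1 : ρ i L g x = ∑ a, (b.repr x a * ((Ψ a g : W.Kˣ) : W.K)) • b a := by
      conv_lhs => rw [← b.sum_repr x]
      rw [map_sum]
      refine Finset.sum_congr rfl fun a _ => ?_
      rw [map_smul, hg a, smul_smul]
    rw [h1, b.repr_sum_self, mul_comm]
  have key : ∀ x : W.H (prodOf X i L), ∀ a, b.repr x a ≠ 0 →
      (Near fun g => b.repr (ρ i L g x - ((χ g : W.Kˣ) : W.K) ^ j • x) a = 0) →
      Near fun g => Ψ a g = χ g ^ j := by
    intro x a hx h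
    refine (Near.and hcoord h).mono fun g hg => ?_
    have h1 : b.repr (ρ i L g x - ((χ g : W.Kˣ) : W.K) ^ j • x) a = 0 := hg.2
    rw [map_sub, map_smul, Finsupp.sub_apply, Finsupp.smul_apply, smul_eq_mul, hg.1 x a,
      ← sub_mul] at h1
    rcases mul_eq_zero.1 h1 with h2 | h2
    · apply Units.ext
      rw [Units.val_pow_eq_pow_val]
      exact sub_eq_zero.1 h2
    · exact absurd h2 hx
  have halg : ∀ r ∈ span W.K (algClasses W (prodOf X i L) j), ∀ a,
      ¬ (Near fun g => Ψ a g = χ g ^ j) → b.repr r a = 0 := by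
    intro r hr a ha
    induction hr using Submodule.span_induction with
    | mem x hx =>
      by_contra hne
      obtain ⟨Δ, hΔ, h1⟩ := (hA.galois i L).cl_fix j x hx
      exact ha (key x a hne ⟨Δ, hΔ, fun g hg => by
        have h2 := h1 g hg
        change b.repr (ρ i L g x - ((χ g : W.Kˣ) : W.K) ^ j • x) a = 0
        rw [h2, sub_self, map_zero, Finsupp.zero_apply]⟩)
    | zero => rw [map_zero, Finsupp.zero_apply]
    | add x y _ _ hx hy => rw [map_add, Finsupp.add_apply, hx, hy, add_zero]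
    | smul t x _ hx => rw [map_smul, Finsupp.smul_apply, hx, smul_zero]
  have hmem : c ∈ algSpan W (prodOf X i L) := by
    have := Fintype.ofFinite κ
    rw [← b.sum_repr c]
    refine Submodule.sum_mem _ fun a _ => ?_
    by_cases h0 : b.repr c a = 0
    · rw [h0, zero_smul]
      exact Submodule.zero_mem _
    · refine Submodule.smul_mem _ _ ?_
      rw [(hb a).1]
      refine hall _ ⟨j, ?_, ?_⟩ _ _ rfl
      · rw [Multiset.map_coe, List.map_map, Multiset.sum_coe]
        by_contra hne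
        apply h0
        refine repr_zero (W.isInternal (prodOf X i L)).submodule_iSupIndep b
          (fun a => ((N a).map fun y : Lt X ι (prodOf X i L) => dg B y.1).sum) (fun a => ?_) hc hne
        rw [(hb a).1]
        exact lwf_gr _
      · by_contra hP
        have hP' : ¬ (Near fun g => Ψ a g = χ g ^ j) := by
          intro h1
          apply hP
          refine h1.mono fun g hg => ?_
          rw [Multiset.map_coe, List.map_map, Multiset.prod_coe]
          exact hg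
        apply hP'
        obtain ⟨Δ, hΔ, h1⟩ := hfix
        exact key c a h0 ⟨Δ, hΔ, fun g hg =>
          halg _ (Submodule.span_mono (removed_sub j U) (h1 g hg)) a hP'⟩
  have h1 := spanCycles_of_algSpan hmem hc
  rwa [spanCycles_eq] at h1

end Pool.Agent.R936.Gal
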