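import Pool.Agent.R936.Hel.Grp

/-!
# Germs of characters
-/

set_option linter.unusedSectionVars false

open Submodule

universe w

namespace Pool.Agent.R936.Gal

variable {Γ K : Type*} [Group Γ] [Field K]

/-- A statement holds for all elements of a subgroup of finite index. -/
def Near (P : Γ → Prop) : Prop := ∃ Δ : Subgroup Γ, Δ.FiniteIndex ∧ ∀ g ∈ Δ, P g

lemma Near.and {P Q : Γ → Prop} (h : Near P) (h' : Near Q) : Near fun g => P g ∧ Q g := by
  obtain ⟨Δ, hΔ, h1⟩ := h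
  obtain ⟨Δ', hΔ', h2⟩ := h'
  exact ⟨Δ ⊓ Δ', inferInstance, fun g hg => ⟨h1 g hg.1, h2 g hg.2⟩⟩

lemma Near.mono {P Q : Γ → Prop} (h : Near P) (h' : ∀ g, P g → Q g) : Near Q := by
  obtain ⟨Δ, hΔ, h1⟩ := h
  exact ⟨Δ, hΔ, fun g hg => h' g (h1 g hg)⟩

lemma Near.of_forall {P : Γ → Prop} (h : ∀ g, P g) : Near P := ⟨⊤, inferInstance, fun g _ => h g⟩

lemma Near.all {κ : Type*} [Finite κ] {P : κ → Γ → Prop} (h : ∀ a, Near (P a)) :
    Near fun g => ∀ a, P a g := by
  choose Δ hΔ h1 using h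
  refine ⟨⨅ a, Δ a, Subgroup.finiteIndex_iInf hΔ, fun g hg a => h1 a g ?_⟩
  exact (Subgroup.mem_iInf.1 hg) a

/-- The functions which are `1` on a subgroup of finite index. -/
def nul (Γ K : Type*) [Group Γ] [Field K] : Submodule ℤ (Additive (Γ → Kˣ)) :=
  AddSubgroup.toIntSubmodule
    { carrier := {f | Near fun g => f.toMul g = 1}
      zero_mem' := Near.of_forall fun _ => rfl
      add_mem' := fun {a b} ha hb => (Near.and ha hb).mono fun g hg => by
        rw [toMul_add, Pi.mul_apply, hg.1, hg.2, one_mul]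
      neg_mem' := fun {a} ha => Near.mono ha fun g hg => by
        rw [toMul_neg, Pi.inv_apply, hg, inv_one] }

lemma mem_nul {f : Γ → Kˣ} : Additive.ofMul f ∈ nul Γ K ↔ Near fun g => f g = 1 := Iff.rfl

/-- The germs of functions. -/
abbrev G0 (Γ K : Type*) [Group Γ] [Field K] := Additive (Γ → Kˣ) ⧸ nul Γ K

/-- The germs of functions modulo torsion. -/
abbrev GQ (Γ K : Type*) [Group Γ] [Field K] := G0 Γ K ⧸ torsion ℤ (G0 Γ K)

/-- The class of a function. -/
def cls (f : Γ → Kˣ) : GQ Γ K := Submodule.Quotient.mk (Submodule.Quotient.mk (Additive.ofMul f))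

lemma cls_mul (f f' : Γ → Kˣ) : cls (f * f') = cls f + cls f' := rfl

lemma cls_one : cls (1 : Γ → Kˣ) = 0 := rfl

lemma cls_zpow (f : Γ → Kˣ) (n : ℤ) : cls (f ^ n) = n • cls f := rfl

lemma cls_prod {ι : Type*} (s : Finset ι) (f : ι → Γ → Kˣ) :
    cls (∏ i ∈ s, f i) = ∑ i ∈ s, cls (f i) := by
  classical
  induction s using Finset.induction_on with
  | empty => rfl
  | insert a s ha ih => rw [Finset.prod_insert ha, Finset.sum_insert ha, cls_mul, ih]

lemma cls_mprod {ι : Type*} (M : Multiset ι) (f : ι → Γ → Kˣ) :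
    cls (M.map f).prod = (M.map fun i => cls (f i)).sum := by
  induction M using Multiset.induction_on with
  | empty => rfl
  | cons a M ih =>
    rw [Multiset.map_cons, Multiset.prod_cons, Multiset.map_cons, Multiset.sum_cons, cls_mul, ih]

lemma cls_of_near {f : Γ → Kˣ} (h : Near fun g => f g = 1) : cls f = 0 := by
  have h1 : (Submodule.Quotient.mk (Additive.ofMul f) : G0 Γ K) = 0 :=
    (Submodule.Quotient.mk_eq_zero _).2 (mem_nul.2 h)
  rw [cls, h1]
  rfl

/-- The function is multiplicative on a subgroup of finite index. -/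
def HomOn (f : Γ → Kˣ) : Prop :=
  ∃ Δ : Subgroup Γ, Δ.FiniteIndex ∧ ∀ g ∈ Δ, ∀ h ∈ Δ, f (g * h) = f g * f h

lemma HomOn.mul {f f' : Γ → Kˣ} (h : HomOn f) (h' : HomOn f') : HomOn (f * f') := by
  obtain ⟨Δ, hΔ, h1⟩ := h
  obtain ⟨Δ', hΔ', h2⟩ := h'
  refine ⟨Δ ⊓ Δ', inferInstance, fun g hg x hx => ?_⟩
  rw [Pi.mul_apply, Pi.mul_apply, Pi.mul_apply, h1 g hg.1 x hx.1, h2 g hg.2 x hx.2]
  exact mul_mul_mul_comm _ _ _ _

lemma HomOn.one : HomOn (1 : Γ → Kˣ) := ⟨⊤, inferInstance, fun _ _ _ _ => (one_mul _).symm⟩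

lemma HomOn.zpow {f : Γ → Kˣ} (h : HomOn f) (n : ℤ) : HomOn (f ^ n) := by
  obtain ⟨Δ, hΔ, h1⟩ := h
  refine ⟨Δ, hΔ, fun g hg x hx => ?_⟩
  rw [Pi.pow_apply, Pi.pow_apply, Pi.pow_apply, h1 g hg x hx, mul_zpow]

lemma HomOn.hom (χ : Γ →* Kˣ) : HomOn (fun g => χ g) :=
  ⟨⊤, inferInstance, fun g _ h _ => map_mul χ g h⟩

lemma HomOn.mprod {ι : Type*} (M : Multiset ι) {f : ι → Γ → Kˣ} (h : ∀ i, HomOn (f i)) :
    HomOn (M.map f).prod := by
  induction M using Multiset.induction_on with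
  | empty => exact HomOn.one
  | cons a M ih =>
    rw [Multiset.map_cons, Multiset.prod_cons]
    exact (h a).mul ih

/-- Functions which are multiplicative near `1` and torsion are `1` near `1`. -/
theorem near_of_cls {f : Γ → Kˣ} (hf : HomOn f) (h : cls f = 0) : Near fun g => f g = 1 := by
  rw [cls, Submodule.Quotient.mk_eq_zero, Submodule.mem_torsion_iff] at h
  obtain ⟨⟨a, ha⟩, h⟩ := h
  have ha0 : a ≠ 0 := nonZeroDivisors.ne_zero ha
  have h0 : (Submodule.Quotient.mk (Additive.ofMul (f ^ a)) : G0 Γ K) = 0 := h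
  have h1 := mem_nul.1 ((Submodule.Quotient.mk_eq_zero _).1 h0)
  obtain ⟨Δ', hΔ', h1⟩ := h1
  obtain ⟨Δ, hΔ, h2⟩ := hf
  set E := Δ ⊓ Δ' with hE
  have hE1 : E.FiniteIndex := inferInstance
  let φ : E →* Kˣ :=
    { toFun := fun g => f g
      map_one' := by
        have h3 := h2 1 Δ.one_mem 1 Δ.one_mem
        rw [one_mul] at h3
        have h4 : f 1 = 1 := by
          have := congrArg (fun x => (f 1)⁻¹ * x) h3
          simpa using this.symm
        exact h4
      map_mul' := fun g h => h2 g g.2.1 h h.2.1 }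
  have hφ : ∀ g, φ g ^ a.natAbs = 1 := by
    intro g
    have h3 : f g ^ a = 1 := h1 g g.2.2
    change f g ^ a.natAbs = 1
    rcases Int.natAbs_eq a with h4 | h4
    · rw [h4, zpow_natCast] at h3
      exact h3
    · rw [h4, zpow_neg, zpow_natCast, inv_eq_one] at h3
      exact h3
  have hfin : Finite φ.range := by
    have : NeZero a.natAbs := ⟨Int.natAbs_ne_zero.2 ha0⟩
    have h3 : (φ.range : Set Kˣ) ⊆ (rootsOfUnity a.natAbs K : Set Kˣ) := by
      rintro _ ⟨g, rfl⟩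
      exact (mem_rootsOfUnity _ _).2 (hφ g)
    have h5 : Finite (rootsOfUnity a.natAbs K) := inferInstance
    have h4 : (rootsOfUnity a.natAbs K : Set Kˣ).Finite := Set.finite_coe_iff.1 h5
    exact (h4.subset h3).to_subtype
  have hker : φ.ker.FiniteIndex := inferInstance
  refine ⟨φ.ker.map E.subtype, ?_, ?_⟩
  · constructor
    rw [Subgroup.index_map_subtype]
    exact mul_ne_zero hker.index_ne_zero hE1.index_ne_zero
  · rintro _ ⟨g, hg, rfl⟩
    exact hg

end Pool.Agent.R936.Gal
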