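import Pool.Agent.R936.Gal.Wt

/-!
# The theorem of Helly type for potentially abelian Galois representations
-/

set_option linter.unusedSectionVars false

open CategoryTheory AlgebraicGeometry

universe u v w w'

namespace Pool.Agent.R936.Gal

open Pool.Agent.H914 Pool.Agent.W534 VarClass Obj WeilCohomology Pool.Agent.H281R3.HT
open Pool.Agent.Y163 (HBasis prod_perm)
open Pool.Agent.Y133.Half (spanCycles_of_algSpan)
open Pool.Agent.R940 (repr_zero)
open Pool.Agent.W536.RR (algSpan_map algSpan_mul one_mem_algSpan algSpan_push)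
open Pool.Agent.TH125.Gal (IsGaloisAct Intertwines TateAct)
open Pool.Agent.R936.Hel
open Submodule (span)

variable {k : Type u} [Field k] {𝒱 : VarClass k} {ops : CycleOps 𝒱}
  {W : WeilCohomology.{u, v} ops} {Y Z Z' : 𝒱.Obj} {Γ : Type w} [Group Γ] {χ : Γ →* W.Kˣ}
  {I : Type w'} {X : I → 𝒱.Obj} {ι : I → Type v} {B : ∀ i, HBasis W (X i) (ι i)}
  {ρ : ∀ i L, Γ →* (W.H (prodOf X i L) ≃ₐ[W.K] W.H (prodOf X i L))}

/-! ### Systems of words -/

section words

variable (S : Cl W)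

/-- The canonical word with the given letters on `T` belongs to the system, and it pairs nontrivially
with a class of the system. -/
def GoodC (B : ∀ i, HBasis W (X i) (ι i)) (T : 𝒱.Obj) (b : List (Σ i, ι i)) : Prop :=
  ∃ C : List (Lt X ι T), (∀ (Z : 𝒱.Obj) (N : List (Lt X ι Z)), N.map Sigma.fst = b →
      ∃ g : Z ⟶ T, lwf B N = W.map g (lwf B C)) ∧ C.map Sigma.fst = b ∧ lwf B C ∈ S.C T ∧
    ∃ y ∈ S.C T, W.tr T (y * lwf B C) ≠ 0

variable {S}

lemma small' {T : 𝒱.Obj} {b : List (Σ i, ι i)} (hT : GoodC S B T b) : AlgS S B ↑b := by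
  intro Z N hN
  obtain ⟨N', h1, h2⟩ := reorder _ N hN
  obtain ⟨ε, _, hε⟩ := lwf_perm (B := B) h1
  obtain ⟨C, h3, _, h5, _⟩ := hT
  obtain ⟨g, hg⟩ := h3 Z N' h2
  rw [hε, hg]
  exact Submodule.smul_mem _ _ (S.map g h5)

lemma cancel' {T : 𝒱.Obj} {b : List (Σ i, ι i)} (hT : GoodC S B T b)
    {M : Multiset (Σ i, ι i)} (h : AlgS S B (M + ↑b)) : AlgS S B M := by
  intro Z N hN
  obtain ⟨C, _, h3, _, y, hyA, hy1⟩ := hT
  have h6 := h (T.prod Z) (pull (fst T Z) C ++ pull (snd T Z) N) (by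
    rw [List.map_append, pull_fst, pull_fst, ← Multiset.coe_add, h3, hN, add_comm])
  rw [lwf_append, ← map_lwf, ← map_lwf] at h6
  have h7 := S.mul (S.map (fst T Z) hyA) h6
  rw [← mul_assoc, ← map_mul] at h7
  have h8 := S.push (snd T Z) h7
  rw [push_snd] at h8
  have h9 := Submodule.smul_mem _ (W.tr T (y * lwf B C))⁻¹ h8
  rwa [smul_smul, inv_mul_cancel₀ hy1, one_smul] at h9

/-- The words generated by words in the system. -/
theorem span' {S₀ : Set (Multiset (Σ i, ι i))}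
    (hT : ∀ (l : Σ i, ι i) (L : List (Σ i, ι i)), (↑(l :: L) : Multiset (Σ i, ι i)) ∈ S₀ →
      GoodC S B (prodOf X l.1 (L.map Sigma.fst)) (l :: L))
    {M : Multiset (Σ i, ι i)} (hM : toZ M ∈ span ℤ (toZ '' S₀)) : AlgS S B M := by
  obtain ⟨N, hN, N', hN', h3⟩ := exists_closure hM
  rw [← map_add] at h3
  have h4 : M + N' = N := toZ_injective h3
  have hlist : ∀ b ∈ S₀, b = 0 ∨ ∃ (l : Σ i, ι i) (L : List (Σ i, ι i)),
      b = ↑(l :: L) ∧ GoodC S B (prodOf X l.1 (L.map Sigma.fst)) (l :: L) := by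
    intro b hb
    induction b using Quotient.inductionOn with
    | h b =>
      match b with
      | [] => exact Or.inl rfl
      | l :: L => exact Or.inr ⟨l, L, rfl, hT _ _ hb⟩
  have h5 : ∀ b ∈ AddSubmonoid.closure S₀, AlgS S B b := by
    intro b hb
    induction hb using AddSubmonoid.closure_induction with
    | mem b hb =>
      rcases hlist b hb with rfl | ⟨l, L, rfl, h6⟩
      · exact AlgS.zero S
      · exact small' h6
    | zero => exact AlgS.zero S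
    | add x y _ _ hx hy => exact hx.add hy
  have h6 : ∀ b ∈ AddSubmonoid.closure S₀, ∀ M : Multiset (Σ i, ι i),
      AlgS S B (M + b) → AlgS S B M := by
    intro b hb
    induction hb using AddSubmonoid.closure_induction with
    | mem b hb =>
      intro M hM
      rcases hlist b hb with rfl | ⟨l, L, rfl, h6⟩
      · rwa [add_zero] at hM
      · exact cancel' h6 hM
    | zero =>
      intro M hM
      rwa [add_zero] at hM
    | add x y _ _ hx hy =>
      intro M hM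
      rw [← add_assoc] at hM
      exact hx M (hy _ hM)
  have h7 := h5 N hN
  rw [← h4] at h7
  exact h6 N' hN' M h7

end words

/-! ### Words and characters -/

variable {ψ : ∀ i, ι i → Γ → W.Kˣ}

/-- The character of a letter. -/
def ch (ψ : ∀ i, ι i → Γ → W.Kˣ) (l : Σ i, ι i) : Γ → W.Kˣ := ψ l.1 l.2

/-- The trace of an external product. -/
lemma tr_xp (T : 𝒱.Obj) (x : W.H Y) (y : W.H T) :
    W.tr (Y.prod T) (W.map (fst Y T) x * W.map (snd Y T) y) = W.tr Y x * W.tr T y :=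
  W.tr_prod x y

lemma pull_ch {T T' : 𝒱.Obj} (g : T' ⟶ T) (C : List (Lt X ι T)) :
    (pull g C).map (fun y => ch ψ y.1) = C.map fun y => ch ψ y.1 := by
  rw [pull, List.map_map]
  rfl

/-- The canonical words and the dual words on `T`. -/
def CanG (B : ∀ i, HBasis W (X i) (ι i)) (ψ : ∀ i, ι i → Γ → W.Kˣ) (m : ∀ l : Σ i, ι i, ι l.1)
    (T : 𝒱.Obj) (υ : Γ →* (W.H T ≃ₐ[W.K] W.H T)) (M : List (Σ i, ι i)) : Prop :=
  ∃ C C' : List (Lt X ι T),
    (∀ (Z : 𝒱.Obj) (N : List (Lt X ι Z)), N.map Sigma.fst = M →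
      ∃ g : Z ⟶ T, lwf B N = W.map g (lwf B C)) ∧
    C.map Sigma.fst = M ∧ C'.map Sigma.fst = M.map (fun x => ⟨x.1, m x⟩) ∧
    W.tr T (lwf B C' * lwf B C) ≠ 0 ∧
    Eig υ (lwf B C) (C.map fun y => ch ψ y.1).prod ∧
    Eig υ (lwf B C') (C'.map fun y => ch ψ y.1).prod

lemma CanG.base {σ : ∀ i, Γ →* (W.H (X i) ≃ₐ[W.K] W.H (X i))}
    (hB : ∀ i a, Eig (σ i) ((B i).b a) (ψ i a))
    {m : ∀ l : Σ i, ι i, ι l.1} (hm : ∀ l, W.tr (X l.1) ((B l.1).b (m l) * (B l.1).b l.2) ≠ 0)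
    (l : Σ i, ι i) : CanG B ψ m (X l.1) (σ l.1) [l] := by
  refine ⟨[⟨l, 𝟙 _⟩], [⟨⟨l.1, m l⟩, 𝟙 _⟩], fun Z N hN => ?_, rfl, rfl, ?_, ?_, ?_⟩
  · match N, hN with
    | [y], hN =>
      have h1 : y.1 = l := by
        rw [List.map_cons, List.map_nil] at hN
        exact (List.cons.inj hN).1
      subst h1
      refine ⟨y.2, ?_⟩
      rw [lwf_cons, lwf_nil, mul_one, lwf_cons, lwf_nil, mul_one, W.map_id]
  · rw [lwf_cons, lwf_nil, mul_one, lwf_cons, lwf_nil, mul_one, W.map_id, W.map_id]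
    exact hm l
  · rw [lwf_cons, lwf_nil, mul_one, List.map_cons, List.map_nil, List.prod_cons, List.prod_nil,
      mul_one, W.map_id]
    exact hB l.1 l.2
  · rw [lwf_cons, lwf_nil, mul_one, List.map_cons, List.map_nil, List.prod_cons, List.prod_nil,
      mul_one, W.map_id]
    exact hB l.1 (m l)

lemma CanG.step {σ : ∀ i, Γ →* (W.H (X i) ≃ₐ[W.K] W.H (X i))}
    (hB : ∀ i a, Eig (σ i) ((B i).b a) (ψ i a))
    {m : ∀ l : Σ i, ι i, ι l.1} (hm : ∀ l, W.tr (X l.1) ((B l.1).b (m l) * (B l.1).b l.2) ≠ 0)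
    {T : 𝒱.Obj} {υ : Γ →* (W.H T ≃ₐ[W.K] W.H T)} (l : Σ i, ι i)
    {υ' : Γ →* (W.H ((X l.1).prod T) ≃ₐ[W.K] W.H ((X l.1).prod T))}
    (hf : Intertwines (W.map (fst (X l.1) T)) (σ l.1) υ')
    (hs : Intertwines (W.map (snd (X l.1) T)) υ υ') {M : List (Σ i, ι i)}
    (h : CanG B ψ m T υ M) : CanG B ψ m ((X l.1).prod T) υ' (l :: M) := by
  obtain ⟨C, C', h1, h2, h3, h4, h5, h6⟩ := h
  refine ⟨⟨l, fst (X l.1) T⟩ :: pull (snd (X l.1) T) C,
    ⟨⟨l.1, m l⟩, fst (X l.1) T⟩ :: pull (snd (X l.1) T) C', fun Z N hN => ?_, ?_, ?_, ?_, ?_, ?_⟩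
  · match N, hN with
    | y :: N, hN =>
      rw [List.map_cons] at hN
      obtain ⟨h4, h5⟩ := List.cons.inj hN
      subst h4
      obtain ⟨g, hg⟩ := h1 Z N h5
      refine ⟨Obj.lift y.2 g, ?_⟩
      rw [lwf_cons, lwf_cons, map_mul, ← map_lwf, ← W.map_comp, ← W.map_comp, Obj.lift_fst,
        Obj.lift_snd, hg]
  · rw [List.map_cons, pull_fst, h2]
  · rw [List.map_cons, pull_fst, h3, List.map_cons]
  · rw [lwf_cons, lwf_cons, ← map_lwf, ← map_lwf]
    have h7 : W.map (snd (X l.1) T) (lwf B C') * W.map (fst (X l.1) T) ((B l.1).b l.2) =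
        ((-1 : W.K) ^ ((C'.map fun y => dg B y.1).sum * (B l.1).deg l.2)) •
        (W.map (fst (X l.1) T) ((B l.1).b l.2) * W.map (snd (X l.1) T) (lwf B C')) :=
      W.comm (W.map_mem _ (lwf_gr C')) (W.map_mem _ ((B l.1).mem l.2))
    have h8 : W.map (fst (X l.1) T) ((B l.1).b (m l)) * W.map (snd (X l.1) T) (lwf B C') *
        (W.map (fst (X l.1) T) ((B l.1).b l.2) * W.map (snd (X l.1) T) (lwf B C)) =
        ((-1 : W.K) ^ ((C'.map fun y => dg B y.1).sum * (B l.1).deg l.2)) •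
        (W.map (fst (X l.1) T) ((B l.1).b (m l) * (B l.1).b l.2) *
        W.map (snd (X l.1) T) (lwf B C' * lwf B C)) := by
      rw [map_mul, map_mul, mul_assoc, ← mul_assoc (W.map (snd _ _) (lwf B C')), h7,
        smul_mul_assoc, mul_smul_comm]
      congr 1
      simp only [mul_assoc]
    rw [h8, map_smul, tr_xp, smul_eq_mul]
    exact mul_ne_zero (pow_ne_zero _ (neg_ne_zero.2 one_ne_zero)) (mul_ne_zero (hm l) h4)
  · rw [lwf_cons, ← map_lwf, List.map_cons, List.prod_cons, pull_ch]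
    exact Eig.mul ((hB l.1 l.2).map hf) (h5.map hs)
  · rw [lwf_cons, ← map_lwf, List.map_cons, List.prod_cons, pull_ch]
    exact Eig.mul ((hB l.1 (m l)).map hf) (h6.map hs)

/-- The canonical words and the dual words. -/
lemma exists_can (hA : FamilyAction W X χ ρ) (hB : ∀ i a, Eig (ρ i []) ((B i).b a) (ψ i a))
    {m : ∀ l : Σ i, ι i, ι l.1} (hm : ∀ l, W.tr (X l.1) ((B l.1).b (m l) * (B l.1).b l.2) ≠ 0) :
    ∀ (L : List (Σ i, ι i)) (l : Σ i, ι i),
      CanG B ψ m (prodOf X l.1 (L.map Sigma.fst)) (ρ l.1 (L.map Sigma.fst)) (l :: L)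
  | [], l => CanG.base (σ := fun i => ρ i []) hB hm l
  | l' :: L, l => (exists_can hA hB hm L l').step (σ := fun i => ρ i []) hB hm l
      (hA.fst l.1 l'.1 _) (hA.snd l.1 l'.1 _)

/-- A basis of words which are eigenvectors. -/
def HasW (B : ∀ i, HBasis W (X i) (ι i)) (ψ : ∀ i, ι i → Γ → W.Kˣ) (T : 𝒱.Obj)
    (υ : Γ →* (W.H T ≃ₐ[W.K] W.H T)) : Prop :=
  ∃ (κ : Type v) (_ : Finite κ) (b : Module.Basis κ W.K (W.H T)) (N : κ → List (Lt X ι T)),
    ∀ a, b a = lwf B (N a) ∧ Eig υ (b a) ((N a).map fun y => ch ψ y.1).prod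

lemma HasW.step {σ : ∀ i, Γ →* (W.H (X i) ≃ₐ[W.K] W.H (X i))}
    (hB : ∀ i a, Eig (σ i) ((B i).b a) (ψ i a))
    {T : 𝒱.Obj} {υ : Γ →* (W.H T ≃ₐ[W.K] W.H T)} (i : I) [Finite (ι i)]
    {υ' : Γ →* (W.H ((X i).prod T) ≃ₐ[W.K] W.H ((X i).prod T))}
    (hf : Intertwines (W.map (fst (X i) T)) (σ i) υ')
    (hs : Intertwines (W.map (snd (X i) T)) υ υ')
    (h : HasW B ψ T υ) : HasW B ψ ((X i).prod T) υ' := by
  obtain ⟨κ, hκ, b, N, h⟩ := h
  refine ⟨ι i × κ, inferInstance, ((B i).b.tensorProduct b).map (kappa W (X i) T),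
    fun x => ⟨⟨i, x.1⟩, fst (X i) T⟩ :: pull (snd (X i) T) (N x.2), fun x => ?_⟩
  have h1 : ((B i).b.tensorProduct b).map (kappa W (X i) T) x =
      W.map (fst (X i) T) ((B i).b x.1) * W.map (snd (X i) T) (b x.2) := by
    rw [Module.Basis.map_apply, Module.Basis.tensorProduct_apply', kappa_tmul]
  refine ⟨?_, ?_⟩
  · rw [lwf_cons, ← map_lwf, ← (h x.2).1]
    exact h1
  · rw [List.map_cons, List.prod_cons, pull_ch, h1]
    exact Eig.mul ((hB i x.1).map hf) ((h x.2).2.map hs)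

lemma exists_words (hA : FamilyAction W X χ ρ) (hfin : ∀ i, Finite (ι i))
    (hB : ∀ i a, Eig (ρ i []) ((B i).b a) (ψ i a)) : ∀ (L : List I) (i : I),
      HasW B ψ (prodOf X i L) (ρ i L)
  | [], i => by
    refine ⟨ι i, hfin i, (B i).b, fun a => [⟨⟨i, a⟩, 𝟙 _⟩], fun a => ⟨?_, ?_⟩⟩
    · rw [lwf_cons, lwf_nil, mul_one]
      exact (W.map_id _ _).symm
    · rw [List.map_cons, List.map_nil, List.prod_cons, List.prod_nil, mul_one]
      exact hB i a
  | j :: L, i => by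
    have := hfin i
    exact (exists_words hA hfin hB L j).step (σ := fun i => ρ i []) hB i
      (hA.fst i j _) (hA.snd i j _)

end Pool.Agent.R936.Gal
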