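import Pool.Agent.R936.Gal.Germ
import Pool.Agent.R936.Gal.Defs
import Pool.Agent.R936.Hel2.Abs
import Pool.Agent.R936.UniGeo

/-!
# Potential eigenvectors
-/

set_option linter.unusedSectionVars false

open CategoryTheory AlgebraicGeometry

universe u v w w'

namespace Pool.Agent.R936.Gal

open Pool.Agent.H914 Pool.Agent.W534 VarClass Obj WeilCohomology Pool.Agent.H281R3.HT
open Pool.Agent.Y163 (HBasis prod_perm)
open Pool.Agent.TH125.Gal (IsGaloisAct Intertwines)
open Pool.Agent.R936.Hel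
open Submodule (span)

section Alg

variable {K : Type*} [Field K] {A : Type*} [Ring A] [Algebra K A] {B : Type*} [Ring B]
  [Algebra K B] {Γ : Type*} [Group Γ] {ρ : Γ →* (A ≃ₐ[K] A)} {υ : Γ →* (B ≃ₐ[K] B)}

/-- `x` is an eigenvector of the elements of a subgroup of finite index, with eigenvalues `f`. -/
def Eig (ρ : Γ →* (A ≃ₐ[K] A)) (x : A) (f : Γ → Kˣ) : Prop :=
  Near fun g => ρ g x = (f g : K) • x

lemma Eig.mul {x y : A} {f f' : Γ → Kˣ} (h : Eig ρ x f) (h' : Eig ρ y f') :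
    Eig ρ (x * y) (f * f') := by
  refine (Near.and h h').mono fun g hg => ?_
  rw [map_mul, hg.1, hg.2, Pi.mul_apply, Units.val_mul, smul_mul_smul_comm]

lemma Eig.one : Eig ρ 1 1 := Near.of_forall fun g => by
  rw [map_one, Pi.one_apply, Units.val_one, one_smul]

lemma Eig.map {p : A →ₐ[K] B} (hp : Intertwines p ρ υ) {x : A} {f : Γ → Kˣ} (h : Eig ρ x f) :
    Eig υ (p x) f := by
  refine h.mono fun g hg => ?_
  rw [hp g x, hg, map_smul]

lemma Eig.unique {x : A} (hx : x ≠ 0) {f f' : Γ → Kˣ} (h : Eig ρ x f) (h' : Eig ρ x f') :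
    Near fun g => f g = f' g := by
  refine (Near.and h h').mono fun g hg => ?_
  apply Units.ext
  exact smul_left_injective K hx (hg.1.symm.trans hg.2)

lemma Eig.homOn {x : A} (hx : x ≠ 0) {f : Γ → Kˣ} (h : Eig ρ x f) : HomOn f := by
  obtain ⟨Δ, hΔ, h1⟩ := h
  refine ⟨Δ, hΔ, fun g hg l hl => ?_⟩
  apply Units.ext
  apply smul_left_injective K hx
  change ((f (g * l) : Kˣ) : K) • x = ((f g * f l : Kˣ) : K) • x
  rw [← h1 _ (Δ.mul_mem hg hl), map_mul, AlgEquiv.mul_apply, h1 l hl, map_smul, h1 g hg,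
    smul_smul, Units.val_mul, mul_comm]

/-- Spaces spanned by common eigenvectors have bases of homogeneous eigenvectors. -/
lemma span_homog {gr : ℕ → Submodule K A} (hint : DirectSum.IsInternal gr) {N : ℕ}
    (hN : ∀ i, N ≤ i → gr i = ⊥) (hgr : ∀ g i, ∀ a ∈ gr i, ρ g a ∈ gr i)
    (h : PotentiallyDiagonal ρ) :
    ⊤ ≤ span K {x : A | x ≠ 0 ∧ (∃ d, x ∈ gr d) ∧ ∃ f : Γ → Kˣ, Eig ρ x f} := by
  obtain ⟨Δ, hΔ, h⟩ := h
  rw [← h]
  refine Submodule.span_le.2 fun x hx => ?_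
  have hcomm : ∀ g i, H914.proj hint i (ρ g x) = ρ g (H914.proj hint i x) := by
    intro g i
    have h1 : H914.IsHom gr 0 ((ρ g).toLinearMap : Module.End K A) := by
      intro j a ha
      rw [add_zero]
      rcases lt_or_ge j 0 with hj | hj
      · rw [H914.grZ_of_neg hj, Submodule.mem_bot] at ha
        rw [ha, map_zero]
        exact Submodule.zero_mem _
      · lift j to ℕ using hj
        rw [H914.grZ_natCast] at ha ⊢
        exact hgr g j a ha
    have h2 := h1.proj_comm hint i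
    exact congrArg (fun F : Module.End K A => F x) h2
  have hsum : x = ∑ i ∈ Finset.range N, H914.proj hint i x := by
    have h1 := congrArg (fun F : Module.End K A => F x) (sum_proj hint hN)
    rw [LinearMap.sum_apply] at h1
    exact h1.symm
  rw [SetLike.mem_coe, hsum]
  refine Submodule.sum_mem _ fun i _ => ?_
  by_cases h0 : H914.proj hint i x = 0
  · rw [h0]
    exact Submodule.zero_mem _
  · refine Submodule.subset_span ⟨h0, ⟨i, proj_mem hint i x⟩, ?_⟩
    have h1 : ∀ g ∈ Δ, ∃ c : Kˣ, ρ g (H914.proj hint i x) = (c : K) • H914.proj hint i x := by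
      intro g hg
      obtain ⟨c, hc⟩ := hx g hg
      have h2 : ρ g (H914.proj hint i x) = c • H914.proj hint i x := by
        rw [← hcomm, hc, map_smul]
      have hc0 : c ≠ 0 := by
        rintro rfl
        rw [zero_smul] at h2
        exact h0 ((ρ g).injective (h2.trans (map_zero _).symm))
      exact ⟨Units.mk0 c hc0, h2⟩
    classical
    choose! c hc using h1
    exact ⟨c, Δ, hΔ, hc⟩

end Alg

variable {k : Type u} [Field k] {𝒱 : VarClass k} {ops : CycleOps 𝒱}
  {W : WeilCohomology.{u, v} ops} {Y Z Z' : 𝒱.Obj} {Γ : Type w} [Group Γ] {χ : Γ →* W.Kˣ}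

/-- The basis of eigenvectors. -/
theorem exists_gbasis {ρ : Γ →* (W.H Y ≃ₐ[W.K] W.H Y)}
    (hgr : ∀ g i, ∀ a ∈ W.gr Y i, ρ g a ∈ W.gr Y i) (h : PotentiallyDiagonal ρ) :
    ∃ (ι : Type v) (_ : Finite ι) (B : HBasis W Y ι) (ψ : ι → Γ → W.Kˣ),
      ∀ a, Eig ρ (B.b a) (ψ a) := by
  have h1 := span_homog (W.isInternal Y) (N := 2 * Y.dim + 1)
    (fun i hi => W.gr_eq_bot Y i (by omega)) hgr h
  let b := Module.Basis.ofSpan h1
  have hb : ∀ a, b a ∈ {x : W.H Y | x ≠ 0 ∧ (∃ d, x ∈ W.gr Y d) ∧ ∃ f : Γ → W.Kˣ, Eig ρ x f} :=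
    fun a => Module.Basis.ofSpan_subset h1 ⟨a, rfl⟩
  choose d hd using fun a => (hb a).2.1
  choose f hf using fun a => (hb a).2.2
  exact ⟨_, Module.Finite.finite_basis b, ⟨b, d, hd⟩, f, hf⟩

end Pool.Agent.R936.Gal
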